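import Mathlib

set_option autoImplicit false

namespace Pool.Agent.Results.MP_59f6dc_co.NoBound

/-- One legal jump: piece `i` moves to its mirror image through piece `j`. -/
def Jump {N d : ℕ} (P Q : Fin N → EuclideanSpace ℝ (Fin d)) : Prop :=
  ∃ i j : Fin N, i ≠ j ∧ Q = Function.update P i ((2 : ℝ) • P j - P i)

/-- `Q` is reached from `P` by exactly `n` legal jumps. -/
def Steps {N d : ℕ} : ℕ → (Fin N → EuclideanSpace ℝ (Fin d)) →
    (Fin N → EuclideanSpace ℝ (Fin d)) → Prop
  | 0, P, Q => Q = P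
  | n + 1, P, Q => ∃ R, Steps n P R ∧ Jump R Q

/-- `Q` is similar to `P` but larger. -/
def Larger {N d : ℕ} (P Q : Fin N → EuclideanSpace ℝ (Fin d)) : Prop :=
  ∃ (l : ℝ) (R : EuclideanSpace ℝ (Fin d) ≃ₗᵢ[ℝ] EuclideanSpace ℝ (Fin d))
    (t : EuclideanSpace ℝ (Fin d)), 1 < l ∧
      Multiset.map Q Finset.univ.val = Multiset.map (fun i => l • R (P i) + t) Finset.univ.val

def D (a b : Fin 3 → ℤ) (i j k : Fin 3) : ℤ :=
  (a j - a i) * (b k - b i) - (a k - a i) * (b j - b i)

lemma D_perm (a b : Fin 3 → ℤ) (i j k : Fin 3) (h1 : i ≠ j) (h2 : i ≠ k) (h3 : j ≠ k) :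
    D a b i j k ^ 2 = D a b 0 1 2 ^ 2 := by
  fin_cases i <;> fin_cases j <;> fin_cases k <;>
    first | (exact absurd rfl h1) | (exact absurd rfl h2) | (exact absurd rfl h3) |
      (simp only [D, Fin.zero_eta, Fin.mk_one, Fin.reduceFinMk, Fin.isValue]; try ring)

lemma D_jump (a b : Fin 3 → ℤ) (i j : Fin 3) (h : i ≠ j) :
    D (Function.update a i (2 * a j - a i)) (Function.update b i (2 * b j - b i)) 0 1 2 ^ 2 =
      D a b 0 1 2 ^ 2 := by
  fin_cases i <;> fin_cases j <;>
    first | (exact absurd rfl h) | (simp [D, Function.update_apply]; ring)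

section
variable {d : ℕ} (e : EuclideanSpace ℝ (Fin d)) (θ : ℝ)

def P0 : Fin 3 → EuclideanSpace ℝ (Fin d) := ![0, e, θ • e]

def Inv (n : ℕ) (Q : Fin 3 → EuclideanSpace ℝ (Fin d)) : Prop :=
  ∃ a b : Fin 3 → ℤ, (∀ i, |a i| ≤ 3 ^ n ∧ |b i| ≤ 3 ^ n) ∧ D a b 0 1 2 ^ 2 = 1 ∧
    ∀ i, Q i = ((a i : ℝ) + b i * θ) • e

lemma inv_steps : ∀ (n : ℕ) (Q : Fin 3 → EuclideanSpace ℝ (Fin d)),
    Steps n (P0 e θ) Q → Inv e θ n Q
  | 0, Q, h => by
    simp only [Steps] at h
    subst h
    refine ⟨![0, 1, 0], ![0, 0, 1], ?_, ?_, ?_⟩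
    · intro i; fin_cases i <;> simp
    · simp [D]
    · intro i; fin_cases i <;> simp [P0]
  | n + 1, Q, ⟨R, h1, i, j, hij, hQ⟩ => by
    obtain ⟨a, b, hb, hD, hR⟩ := inv_steps n R h1
    refine ⟨Function.update a i (2 * a j - a i), Function.update b i (2 * b j - b i), ?_, ?_, ?_⟩
    · intro k
      have p : (0 : ℤ) < 3 ^ n := by positivity
      have hi := hb i
      have hj := hb j
      have hk := hb k
      rw [pow_succ]
      by_cases c : k = i
      · subst c
        simp only [Function.update_self, abs_le] at *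
        omega
      · simp only [Function.update_of_ne c, abs_le] at *
        omega
    · rw [D_jump a b i j hij, hD]
    · intro k
      subst hQ
      by_cases c : k = i
      · subst c
        simp only [Function.update_self, hR]
        rw [smul_smul, ← sub_smul]
        congr 1
        push_cast
        ring
      · simp only [Function.update_of_ne c, hR]

lemma steps_up (k : ℕ) :
    Steps (2 * k) (P0 e θ) (Function.update (P0 e θ) 1 ((1 + 2 * k * θ) • e)) := by
  induction k with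
  | zero =>
    simp only [Steps, Nat.mul_zero]
    funext i; fin_cases i <;> simp [P0]
  | succ k ih =>
    refine ⟨Function.update (P0 e θ) 1 ((-(1 + 2 * k * θ)) • e), ⟨_, ih, 1, 0, by decide, ?_⟩,
      1, 2, by decide, ?_⟩
    · funext i; fin_cases i <;> simp [P0, -neg_add_rev]
    · funext i
      fin_cases i
      · simp [P0]
      · simp only [P0, Fin.mk_one, Fin.isValue, Function.update_self,
          Function.update_of_ne (show (2 : Fin 3) ≠ 1 by decide)]
        simp only [Matrix.cons_val]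
        rw [smul_smul, ← sub_smul]
        congr 1
        push_cast
        ring
      · simp [P0]
end

lemma arith (m L : ℕ) (θ l : ℝ) (hm : m = L + 1) (hθ : θ * θ = 2 * m * θ + 1) (hθ' : 2 * m < θ)
    (A B C E : ℤ) (hA : |A| ≤ L) (hB : |B| ≤ L) (hC : |C| ≤ L) (hE : |E| ≤ L)
    (hdet : (A * E - C * B) ^ 2 = 1) (h1 : (C : ℝ) + E * θ = θ * (A + B * θ))
    (h2 : |(A : ℝ) + B * θ| = l) (hl : 1 < l) : False := by
  have h3 : ((C - B : ℤ) : ℝ) = ((A + 2 * m * B - E : ℤ) : ℝ) * θ := by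
    push_cast
    linear_combination h1 + B * hθ
  have hθ0 : 0 < θ := lt_of_le_of_lt (by positivity) hθ'
  have hX : A + 2 * m * B - E = 0 := by
    by_contra hX
    have h4 : (1 : ℝ) ≤ |((A + 2 * m * B - E : ℤ) : ℝ)| := by
      exact_mod_cast Int.one_le_abs hX
    have h5 : |((C - B : ℤ) : ℝ)| ≤ 2 * L := by
      have : |C - B| ≤ 2 * L := by rw [abs_le] at *; omega
      exact_mod_cast this
    rw [h3, abs_mul, abs_of_pos hθ0] at h5
    have h6 : (m : ℝ) = L + 1 := by exact_mod_cast hm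
    nlinarith
  have hCB : C = B := by
    rw [hX] at h3
    have : C - B = 0 := by exact_mod_cast (by simpa using h3 : ((C - B : ℤ) : ℝ) = 0)
    omega
  have hB0 : B = 0 := by
    subst hm
    rw [abs_le] at *
    push_cast at hX
    by_contra hB0
    rcases lt_or_gt_of_ne hB0 with h | h <;> nlinarith
  subst hB0
  subst hCB
  have hAE : E = A := by simpa using (by linarith : E = A + 2 * m * 0)
  subst hAE
  have h7 : |E| = 1 := by
    have h8 : (E * E) ^ 2 = 1 := by simpa using hdet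
    have h9 : E * E = 1 := by nlinarith [mul_self_nonneg E]
    rcases Int.eq_one_or_neg_one_of_mul_eq_one h9 with h | h <;> simp [h]
  have h10 : |(E : ℝ)| = 1 := by exact_mod_cast h7
  simp at h2
  linarith

theorem result :
    ∀ d : ℕ, 1 ≤ d → ∀ M : ℕ, ∃ P : Fin 3 → EuclideanSpace ℝ (Fin d),
      Function.Injective P ∧ (∃ n Q, Steps n P Q ∧ Larger P Q) ∧
        ∀ n Q, Steps n P Q → Larger P Q → M < n := by
  intro d hd M
  obtain ⟨e, he⟩ : ∃ e : EuclideanSpace ℝ (Fin d), ‖e‖ = 1 :=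
    ⟨EuclideanSpace.single ⟨0, hd⟩ 1, by simp⟩
  have he0 : e ≠ 0 := by rintro rfl; simp at he
  obtain ⟨m, hm⟩ : ∃ m : ℕ, m = 2 * 3 ^ M + 1 := ⟨_, rfl⟩
  have hm1 : (1 : ℝ) ≤ m := by exact_mod_cast (by omega : 1 ≤ m)
  obtain ⟨θ, hθ, hθ'⟩ : ∃ θ : ℝ, θ * θ = 2 * m * θ + 1 ∧ 2 * m < θ := by
    have hs := Real.mul_self_sqrt (show (0 : ℝ) ≤ (m : ℝ) * m + 1 by positivity)
    have hlt : (m : ℝ) < Real.sqrt (m * m + 1) := Real.lt_sqrt_of_sq_lt (by nlinarith)
    exact ⟨m + Real.sqrt (m * m + 1), by linear_combination hs, by linarith⟩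
  have inj : ∀ x y : ℝ, x • e = y • e → x = y := fun x y h => smul_left_injective ℝ he0 h
  refine ⟨P0 e θ, ?_, ⟨2 * m, _, steps_up e θ m, θ, LinearIsometryEquiv.refl ℝ _, 0,
    by linarith, ?_⟩, ?_⟩
  · have hc : ∀ i, P0 e θ i = (![0, 1, θ] i : ℝ) • e := by
      intro i; fin_cases i <;> simp [P0]
    intro i j h
    rw [hc, hc] at h
    have := inj _ _ h
    fin_cases i <;> fin_cases j <;> simp at this ⊢ <;> linarith
  · rw [← Multiset.map_univ_val_equiv (Equiv.swap (1 : Fin 3) 2), Multiset.map_map,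
      Multiset.map_univ_val_equiv]
    congr 1
    funext i
    fin_cases i
    · simp [P0, Equiv.swap_apply_def]
    · simp [P0, Equiv.swap_apply_def]
    · simp [P0, Equiv.swap_apply_def, smul_smul, hθ, add_comm]
  · rintro n Q hs ⟨l, R, t, hl, hQ⟩
    by_contra hn
    have hn' : n ≤ M := by omega
    obtain ⟨a, b, hb, hD, hR⟩ := inv_steps e θ n Q hs
    have mem : ∀ k, ∃ i, Q i = l • R (P0 e θ k) + t := by
      intro k
      have : l • R (P0 e θ k) + t ∈ Multiset.map Q Finset.univ.val := by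
        rw [hQ]; exact Multiset.mem_map.2 ⟨k, Finset.mem_univ_val _, rfl⟩
      obtain ⟨i, -, hi⟩ := Multiset.mem_map.1 this
      exact ⟨i, hi⟩
    obtain ⟨i, hi⟩ := mem 0
    obtain ⟨j, hj⟩ := mem 1
    obtain ⟨k, hk⟩ := mem 2
    have e0 : P0 e θ 0 = 0 := rfl
    have e1 : P0 e θ 1 = e := rfl
    have e2 : P0 e θ 2 = θ • e := rfl
    rw [e0, map_zero, smul_zero, zero_add, hR] at hi
    rw [e1, hR, ← hi] at hj
    rw [e2, hR, ← hi, map_smul] at hk
    have hu : (((a j - a i : ℤ) : ℝ) + (b j - b i : ℤ) * θ) • e = l • R e := by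
      rw [← sub_eq_iff_eq_add, ← sub_smul] at hj
      rw [← hj]; congr 1; push_cast; ring
    have hv : (((a k - a i : ℤ) : ℝ) + (b k - b i : ℤ) * θ) • e = θ • l • R e := by
      rw [← sub_eq_iff_eq_add, ← sub_smul, smul_comm] at hk
      rw [← hk]; congr 1; push_cast; ring
    have h2 : |((a j - a i : ℤ) : ℝ) + (b j - b i : ℤ) * θ| = l := by
      have := congrArg norm hu
      rwa [norm_smul, norm_smul, R.norm_map, he, mul_one, mul_one, Real.norm_eq_abs,
        Real.norm_eq_abs, abs_of_pos (by linarith : 0 < l)] at this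
    rw [← hu, smul_smul] at hv
    have h1 := inj _ _ hv
    have hij : i ≠ j := by
      rintro rfl; simp at h2; linarith
    have hu0 : ((a j - a i : ℤ) : ℝ) + (b j - b i : ℤ) * θ ≠ 0 := by
      intro h; rw [h] at h2; simp at h2; linarith
    have hik : i ≠ k := by
      rintro rfl
      simp only [sub_self, Int.cast_zero, zero_mul, add_zero] at h1
      rcases mul_eq_zero.1 h1.symm with h | h
      · linarith
      · exact hu0 h
    have hjk : j ≠ k := by
      rintro rfl
      have : (θ - 1) * (((a j - a i : ℤ) : ℝ) + (b j - b i : ℤ) * θ) = 0 := by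
        linear_combination -h1
      rcases mul_eq_zero.1 this with h | h
      · linarith
      · exact hu0 h
    have hp : (3 : ℤ) ^ n ≤ 3 ^ M := pow_le_pow_right₀ (by norm_num) hn'
    have hdet := (D_perm a b i j k hij hik hjk).trans hD
    have bi := hb i
    have bj := hb j
    have bk := hb k
    have hL : ((2 * 3 ^ M : ℕ) : ℤ) = 2 * 3 ^ M := by push_cast; rfl
    refine arith m (2 * 3 ^ M) θ l hm hθ hθ' (a j - a i) (b j - b i) (a k - a i) (b k - b i)
      ?_ ?_ ?_ ?_ hdet h1 h2 hl <;> (rw [hL]; simp only [abs_le] at bi bj bk ⊢; omega)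

end Pool.Agent.Results.MP_59f6dc_co.NoBound
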